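import Pool.Agent.Y819.ZF.Stm
import Pool.Agent.W862.LE.Lift

/-!
# Project ZF, part 10: list edge colourings of regular `p`-group covers
-/

set_option autoImplicit false
set_option linter.all false

namespace Pool.Agent.Y592.ZF

open MvPolynomial Finset Pool.Agent.Helper929 Pool.Agent.H604R2.LEC Pool.Agent.Y819.ZF

/-- the edge joining two neighbours -/
noncomputable def mk {n : ℕ} (G : SimpleGraph (Fin n)) (v w : Fin n) (h : G.Adj v w) : GE G :=
  if h' : v < w then ⟨⟨(v, w), h'⟩, h⟩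
  else ⟨⟨(w, v), lt_of_le_of_ne (not_lt.1 h') (G.ne_of_adj h).symm⟩, h.symm⟩

theorem mk_cases {n : ℕ} (G : SimpleGraph (Fin n)) (v w : Fin n) (h : G.Adj v w) :
    (gτ G (mk G v w h) = v ∧ gη G (mk G v w h) = w) ∨
      (gτ G (mk G v w h) = w ∧ gη G (mk G v w h) = v) := by
  unfold mk
  split_ifs with h'
  · exact Or.inl ⟨rfl, rfl⟩
  · exact Or.inr ⟨rfl, rfl⟩

theorem g_lt {n : ℕ} (G : SimpleGraph (Fin n)) (e : GE G) : gτ G e < gη G e := e.1.2

theorem mk_inj {n : ℕ} (G : SimpleGraph (Fin n)) (v w w' : Fin n) (h : G.Adj v w)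
    (h' : G.Adj v w') (he : mk G v w h = mk G v w' h') : w = w' := by
  have h1 := mk_cases G v w h
  have h2 := mk_cases G v w' h'
  rw [← he] at h2
  have h3 := g_lt G (mk G v w h)
  rcases h1 with ⟨h1, h1'⟩ | ⟨h1, h1'⟩ <;> rcases h2 with ⟨h2, h2'⟩ | ⟨h2, h2'⟩
  · exact h1'.symm.trans h2'
  · rw [h1, h2'] at h3
    exact absurd h3 (lt_irrefl _)
  · rw [h2, h1'] at h3
    exact absurd h3 (lt_irrefl _)
  · exact h1.symm.trans h2

theorem mk_tau {n : ℕ} (G : SimpleGraph (Fin n)) (e : GE G) :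
    mk G (gτ G e) (gη G e) e.2 = e := by
  unfold mk
  rw [dif_pos (g_lt G e)]
  rfl

theorem mk_eta {n : ℕ} (G : SimpleGraph (Fin n)) (e : GE G) :
    mk G (gη G e) (gτ G e) e.2.symm = e := by
  unfold mk
  rw [dif_neg (not_lt.2 (g_lt G e).le)]
  rfl

theorem cc_cast (p : ℕ) (d : ℕ) {n : ℕ} {E : Type} [Fintype E] (τ η : E → Fin n) :
    ((cc ℤ d τ η : ℤ) : ZMod p) = cc (ZMod p) d τ η := by
  unfold cc
  have h1 : ((coeff (oneE E) (pf n (SM ℤ τ η) ^ d) : ℤ) : ZMod p) =
      coeff (oneE E) (MvPolynomial.map (Int.castRingHom (ZMod p)) (pf n (SM ℤ τ η) ^ d)) := by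
    rw [MvPolynomial.coeff_map]
    rfl
  rw [h1, map_pow, pf_map]
  congr 3
  ext i j
  simp only [SM, Matrix.map_apply, Matrix.of_apply, map_sum, map_sub, apply_ite, MvPolynomial.map_X,
    map_zero]

open Classical in
theorem main (h : S_CNT) : S_GC := by
  intro p hp n d G hd hcc P _ _ hP β hβ
  have hN : ∀ v, Nonempty (Fin d ≃ {w // G.Adj v w}) := by
    intro v
    refine ⟨Fintype.equivOfCardEq ?_⟩
    rw [Fintype.card_fin, Fintype.card_subtype]
    exact (hd v).symm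
  let N : ∀ v, Fin d ≃ {w // G.Adj v w} := fun v => (hN v).some
  let inc : Fin n → Fin d → GE G := fun v i => mk G v (N v i).1 (N v i).2
  have hinj : ∀ v, Function.Injective (inc v) := by
    intro v i j hij
    exact (N v).injective (Subtype.ext (mk_inj G v _ _ _ _ hij))
  have hiff : ∀ v e, (∃ i, inc v i = e) ↔ (v = gτ G e ∨ v = gη G e) := by
    intro v e
    constructor
    · rintro ⟨i, rfl⟩
      rcases mk_cases G v (N v i).1 (N v i).2 with ⟨h1, h2⟩ | ⟨h1, h2⟩
      · exact Or.inl h1.symm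
      · exact Or.inr h2.symm
    · rintro (rfl | rfl)
      · refine ⟨(N (gτ G e)).symm ⟨gη G e, e.2⟩, ?_⟩
        simp only [inc, Equiv.apply_symm_apply]
        exact mk_tau G e
      · refine ⟨(N (gη G e)).symm ⟨gτ G e, e.2.symm⟩, ?_⟩
        simp only [inc, Equiv.apply_symm_apply]
        exact mk_eta G e
  obtain ⟨ε, hε, hNN⟩ := h n d (GE G) (gτ G) (gη G) inc (fun e => (g_lt G e).ne) hinj hiff
  have hndvd : ¬ ((p : ℤ) ∣ Pool.Agent.W426.LE.NN (Equiv.refl (Fin d)) inc) := by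
    intro hdvd
    rw [hNN, ← ZMod.intCast_zmod_eq_zero_iff_dvd, Int.cast_mul, cc_cast] at hdvd
    rcases hε with rfl | rfl
    · exact hcc (by simpa using hdvd)
    · exact hcc (by simpa using hdvd)
  let b : Fin n → Fin d → P := fun v i =>
    if v = gτ G (inc v i) then 1 else β (gη G (inc v i)) (gτ G (inc v i))
  have hlift := Pool.Agent.W862.LE.lift_ne_zero p hP (Equiv.refl (Fin d)) inc b hndvd
  -- the edges of the cover
  have hadj : ∀ q : GE G × P, (coverGraph G β hβ).Adj (gτ G q.1, q.2)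
      (gη G q.1, q.2 * β (gτ G q.1) (gη G q.1)) := fun q => ⟨q.1.2, rfl⟩
  let f : GE G × P → (coverGraph G β hβ).edgeSet := fun q =>
    ⟨s((gτ G q.1, q.2), (gη G q.1, q.2 * β (gτ G q.1) (gη G q.1))), hadj q⟩
  have hf : Function.Bijective f := by
    constructor
    · rintro ⟨e, g⟩ ⟨e', g'⟩ hq
      have h1 : s((gτ G e, g), (gη G e, g * β (gτ G e) (gη G e))) =
          s((gτ G e', g'), (gη G e', g' * β (gτ G e') (gη G e'))) := congrArg Subtype.val hq
      rw [Sym2.eq_iff] at h1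
      rcases h1 with ⟨h1, h2⟩ | ⟨h1, h2⟩
      · have h3 : gτ G e = gτ G e' := (Prod.ext_iff.1 h1).1
        have h4 : gη G e = gη G e' := (Prod.ext_iff.1 h2).1
        have h5 : g = g' := (Prod.ext_iff.1 h1).2
        refine Prod.ext (Subtype.ext (Subtype.ext (Prod.ext h3 h4))) h5
      · have h3 : gτ G e = gη G e' := (Prod.ext_iff.1 h1).1
        have h4 : gη G e = gτ G e' := (Prod.ext_iff.1 h2).1
        have h5 := g_lt G e
        have h6 := g_lt G e'
        rw [h3, h4] at h5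
        exact absurd (h5.trans h6) (lt_irrefl _)
    · rintro ⟨e, he⟩
      induction e using Sym2.ind with
      | _ x y =>
        obtain ⟨x, g⟩ := x
        obtain ⟨y, k⟩ := y
        obtain ⟨h1, h2⟩ : G.Adj x y ∧ k = g * β x y := he
        rcases lt_or_gt_of_ne (G.ne_of_adj h1) with hlt | hlt
        · refine ⟨(⟨⟨(x, y), hlt⟩, h1⟩, g), Subtype.ext ?_⟩
          show s((x, g), (y, g * β x y)) = s((x, g), (y, k))
          rw [h2]
        · refine ⟨(⟨⟨(y, x), hlt⟩, h1.symm⟩, k), Subtype.ext ?_⟩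
          show s((y, k), (x, k * β y x)) = s((x, g), (y, k))
          rw [h2, hβ x y, Sym2.eq_swap]
          simp
  let ψ : GE G × P ≃ (coverGraph G β hβ).edgeSet := Equiv.ofBijective f hf
  have hψ : ∀ q, ((ψ q : (coverGraph G β hβ).edgeSet) : Sym2 (Fin n × P)) =
      s((gτ G q.1, q.2), (gη G q.1, q.2 * β (gτ G q.1) (gη G q.1))) := fun q => rfl
  have hL := Pool.Agent.W426.LE.EL.sGRE (Fin n × P) (GE G × P) (Fin d) (Fin d)
    (Equiv.refl (Fin d)) (Pool.Agent.W862.LE.linc inc b) (coverGraph G β hβ) ψ ?_ ?_ ?_ hlift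
  · rwa [Fintype.card_fin] at hL
  · rintro ⟨v, g⟩ i
    rw [hψ]
    simp only [Pool.Agent.W862.LE.linc, b, Sym2.mem_iff]
    have hvi := (hiff v (inc v i)).1 ⟨i, rfl⟩
    by_cases hv : v = gτ G (inc v i)
    · left
      rw [if_pos hv, mul_one, ← hv]
    · right
      rw [if_neg hv]
      have hv' := hvi.resolve_left hv
      rw [hβ (gτ G (inc v i)) (gη G (inc v i))]
      refine Prod.ext hv' ?_
      simp
  · rintro ⟨v, g⟩ ⟨e, g0⟩ hm
    rw [hψ, Sym2.mem_iff] at hm
    rcases hm with hm | hm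
    · have h1 : v = gτ G e := (Prod.ext_iff.1 hm).1
      have h2 : g = g0 := (Prod.ext_iff.1 hm).2
      obtain ⟨i, hi⟩ := (hiff v e).2 (Or.inl h1)
      refine ⟨i, ?_⟩
      simp only [Pool.Agent.W862.LE.linc, b]
      rw [hi, if_pos h1, mul_one, h2]
    · have h1 : v = gη G e := (Prod.ext_iff.1 hm).1
      have h2 : g = g0 * β (gτ G e) (gη G e) := (Prod.ext_iff.1 hm).2
      obtain ⟨i, hi⟩ := (hiff v e).2 (Or.inr h1)
      refine ⟨i, ?_⟩
      simp only [Pool.Agent.W862.LE.linc, b]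
      have h3 : v ≠ gτ G e := by
        rw [h1]
        exact (g_lt G e).ne'
      rw [hi, if_neg h3, h2, hβ (gτ G e) (gη G e)]
      simp
  · rintro ⟨v, g⟩ i j hij
    exact hinj v (Prod.ext_iff.1 hij).1

end Pool.Agent.Y592.ZF
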