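import Pool.Agent.Y819.ZF.Stm2
import Pool.Agent.Y592.ZF.GC

/-!
# Project ZF, part 2: regular covers with a `p`-group
-/

set_option autoImplicit false
set_option linter.all false

namespace Pool.Agent.Y592.ZF

open MvPolynomial Finset Pool.Agent.Helper929 Pool.Agent.H604R2.LEC Pool.Agent.Y819.ZF

theorem NN_reindex {V V' E D C : Type} [Fintype V] [Fintype V'] [Fintype E] [Fintype D] [Fintype C]
    (ρ : D ≃ C) (inc : V → D → E) (σ : V' ≃ V) :
    Pool.Agent.W426.LE.NN ρ (fun v => inc (σ v)) = Pool.Agent.W426.LE.NN ρ inc := by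
  unfold Pool.Agent.W426.LE.NN
  refine sum_congr rfl fun x _ => ?_
  exact Fintype.prod_equiv σ _ _ (fun v => rfl)

theorem mk_congr {n : ℕ} (G : SimpleGraph (Fin n)) {v w v' w' : Fin n} (h1 : v = v') (h2 : w = w')
    (h : G.Adj v w) (h' : G.Adj v' w') : mk G v w h = mk G v' w' h' := by
  subst h1 h2
  rfl

open Classical in
/-- the incidence structure of the cover -/
theorem base (h : S_CNT) (p : ℕ) [Fact p.Prime] (n d : ℕ) (G : SimpleGraph (Fin n))
    (hd : ∀ v, (univ.filter fun w => G.Adj v w).card = d)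
    (hcc : cc (ZMod p) d (gτ G) (gη G) ≠ 0)
    (P : Type) [Group P] [Fintype P] (hP : IsPGroup p P) (β : Fin n → Fin n → P)
    (hβ : ∀ u v, β v u = (β u v)⁻¹) :
    ∃ inc2 : Fin n × P → Fin d → GE G × P, (∀ v, Function.Injective (inc2 v)) ∧
      (∀ v e, (∃ i, inc2 v i = e) ↔ (v = (gτ G e.1, e.2) ∨
        v = (gη G e.1, e.2 * β (gτ G e.1) (gη G e.1)))) ∧
      ((Pool.Agent.W426.LE.NN (Equiv.refl (Fin d)) inc2 : ℤ) : ZMod p) ≠ 0 := by
  have hN : ∀ v, Nonempty (Fin d ≃ {w // G.Adj v w}) := by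
    intro v
    refine ⟨Fintype.equivOfCardEq ?_⟩
    rw [Fintype.card_fin, Fintype.card_subtype]
    exact (hd v).symm
  let N : ∀ v, Fin d ≃ {w // G.Adj v w} := fun v => (hN v).some
  let inc : Fin n → Fin d → GE G := fun v i => mk G v (N v i).1 (N v i).2
  have hinj : ∀ v, Function.Injective (inc v) := by
    intro v i j hij
    exact (N v).injective (Subtype.ext (mk_inj G v _ _ _ _ hij))
  have hiff : ∀ v e, (∃ i, inc v i = e) ↔ (v = gτ G e ∨ v = gη G e) := by
    intro v e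
    constructor
    · rintro ⟨i, rfl⟩
      rcases mk_cases G v (N v i).1 (N v i).2 with ⟨h1, h2⟩ | ⟨h1, h2⟩
      · exact Or.inl h1.symm
      · exact Or.inr h2.symm
    · rintro (rfl | rfl)
      · refine ⟨(N (gτ G e)).symm ⟨gη G e, e.2⟩, ?_⟩
        simp only [inc, Equiv.apply_symm_apply]
        exact mk_tau G e
      · refine ⟨(N (gη G e)).symm ⟨gτ G e, e.2.symm⟩, ?_⟩
        simp only [inc, Equiv.apply_symm_apply]
        exact mk_eta G e
  obtain ⟨ε, hε, hNN⟩ := h n d (GE G) (gτ G) (gη G) inc (fun e => (g_lt G e).ne) hinj hiff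
  have hne : ((Pool.Agent.W426.LE.NN (Equiv.refl (Fin d)) inc : ℤ) : ZMod p) ≠ 0 := by
    intro hdvd
    rw [hNN, Int.cast_mul, cc_cast] at hdvd
    rcases hε with rfl | rfl
    · exact hcc (by simpa using hdvd)
    · exact hcc (by simpa using hdvd)
  let b : Fin n → Fin d → P := fun v i =>
    if v = gτ G (inc v i) then 1 else β (gη G (inc v i)) (gτ G (inc v i))
  refine ⟨Pool.Agent.W862.LE.linc inc b, ?_, ?_, ?_⟩
  · rintro ⟨v, g⟩ i j hij
    exact hinj v (Prod.ext_iff.1 hij).1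
  · rintro ⟨v, g⟩ ⟨e, g0⟩
    constructor
    · rintro ⟨i, hi⟩
      have hi1 : inc v i = e := (Prod.ext_iff.1 hi).1
      have hi2 : g * b v i = g0 := (Prod.ext_iff.1 hi).2
      have hvi := (hiff v e).1 ⟨i, hi1⟩
      by_cases hv : v = gτ G e
      · left
        have hb : b v i = 1 := by
          simp only [b, hi1]
          rw [if_pos hv]
        rw [hb, mul_one] at hi2
        exact Prod.ext hv hi2
      · right
        have hb : b v i = β (gη G e) (gτ G e) := by
          simp only [b, hi1]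
          rw [if_neg hv]
        rw [hb, hβ (gτ G e) (gη G e)] at hi2
        refine Prod.ext (hvi.resolve_left hv) ?_
        show g = g0 * β (gτ G e) (gη G e)
        rw [← hi2]
        simp
    · rintro (hm | hm)
      · have h1 : v = gτ G e := (Prod.ext_iff.1 hm).1
        have h2 : g = g0 := (Prod.ext_iff.1 hm).2
        obtain ⟨i, hi⟩ := (hiff v e).2 (Or.inl h1)
        refine ⟨i, ?_⟩
        simp only [Pool.Agent.W862.LE.linc, b]
        rw [hi, if_pos h1, mul_one, h2]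
      · have h1 : v = gη G e := (Prod.ext_iff.1 hm).1
        have h2 : g = g0 * β (gτ G e) (gη G e) := (Prod.ext_iff.1 hm).2
        obtain ⟨i, hi⟩ := (hiff v e).2 (Or.inr h1)
        refine ⟨i, ?_⟩
        simp only [Pool.Agent.W862.LE.linc, b]
        have h3 : v ≠ gτ G e := by
          rw [h1]
          exact (g_lt G e).ne'
        rw [hi, if_neg h3, h2, hβ (gτ G e) (gη G e)]
        simp
  · rw [Pool.Agent.W862.LE.lift_mod p hP]
    exact hne

open Classical in
theorem cov (h1 : S_CNT) (h2 : S_ISO) (h4 : S_GME) : S_COV := by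
  intro p hp V G hreg hOK P _ _ hP β hβ N e'
  haveI := hreg.fin
  haveI : Fintype P := Fintype.ofFinite P
  let n := Nat.card V
  let e : V ≃ Fin n := Finite.equivFin V
  let G' : SimpleGraph (Fin n) := G.comap e.symm
  let β' : Fin n → Fin n → P := fun a b => β (e.symm a) (e.symm b)
  have hβ' : ∀ u v, β' v u = (β' u v)⁻¹ := fun u v => hβ _ _
  have hd : ∀ v, (univ.filter fun w => G'.Adj v w).card = p - 2 := by
    intro v
    rw [← hreg.reg (e.symm v), ← finsum_comp_equiv e.symm, finsum_eq_sum_of_fintype, card_filter]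
    refine sum_congr rfl fun b _ => ?_
    rfl
  have hcc : cc (ZMod p) (p - 2) (gτ G') (gη G') ≠ 0 := (h4 p (p - 2) V G n e).2 (hOK n e)
  obtain ⟨inc2, hinj2, hiff2, hNN2⟩ := base h1 p n (p - 2) G' hd hcc P hP β' hβ'
  rw [← h4 p (p - 2) (V × P) (coverGraph G β hβ) N e']
  set H : SimpleGraph (Fin N) := (coverGraph G β hβ).comap e'.symm with hH
  let e2 : Fin n × P ≃ Fin N := (e.symm.prodCongr (Equiv.refl P)).trans e'
  let τ2 : GE G' × P → Fin N := fun x => e2 (gτ G' x.1, x.2)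
  let η2 : GE G' × P → Fin N := fun x => e2 (gη G' x.1, x.2 * β' (gτ G' x.1) (gη G' x.1))
  have hadj : ∀ a b : Fin n × P, H.Adj (e2 a) (e2 b) ↔
      G'.Adj a.1 b.1 ∧ b.2 = a.2 * β' a.1 b.1 := by
    intro a b
    rw [hH, SimpleGraph.comap_adj]
    simp only [e2, Equiv.trans_apply, Equiv.symm_apply_apply]
    exact Iff.rfl
  have hτη : ∀ x, H.Adj (τ2 x) (η2 x) := fun x => (hadj _ _).2 ⟨x.1.2, rfl⟩
  -- the count
  obtain ⟨ε, hε, hNN⟩ := h1 N (p - 2) (GE G' × P) τ2 η2 (fun v => inc2 (e2.symm v))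
    (fun x => H.ne_of_adj (hτη x)) (fun v => hinj2 _) (by
      intro v x
      rw [hiff2, Equiv.symm_apply_eq, Equiv.symm_apply_eq])
  rw [NN_reindex (Equiv.refl (Fin (p - 2))) inc2 e2.symm] at hNN
  have hcc2 : cc (ZMod p) (p - 2) τ2 η2 ≠ 0 := by
    intro h0
    apply hNN2
    rw [hNN, Int.cast_mul, cc_cast, h0, mul_zero]
  -- the edges
  let f : GE G' × P → GE H := fun x => mk H (τ2 x) (η2 x) (hτη x)
  have hf : Function.Bijective f := by
    constructor
    · rintro ⟨x, g⟩ ⟨x', g'⟩ hq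
      have c1 := mk_cases H (τ2 (x, g)) (η2 (x, g)) (hτη _)
      have c2 := mk_cases H (τ2 (x', g')) (η2 (x', g')) (hτη _)
      have hq' : mk H (τ2 (x, g)) (η2 (x, g)) (hτη _) = mk H (τ2 (x', g')) (η2 (x', g')) (hτη _) :=
        hq
      rw [← hq'] at c2
      have c3 : (τ2 (x, g) = τ2 (x', g') ∧ η2 (x, g) = η2 (x', g')) ∨
          (τ2 (x, g) = η2 (x', g') ∧ η2 (x, g) = τ2 (x', g')) := by
        rcases c1 with ⟨a1, a2⟩ | ⟨a1, a2⟩ <;> rcases c2 with ⟨b1, b2⟩ | ⟨b1, b2⟩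
        · exact Or.inl ⟨a1.symm.trans b1, a2.symm.trans b2⟩
        · exact Or.inr ⟨a1.symm.trans b1, a2.symm.trans b2⟩
        · exact Or.inr ⟨a2.symm.trans b2, a1.symm.trans b1⟩
        · exact Or.inl ⟨a2.symm.trans b2, a1.symm.trans b1⟩
      rcases c3 with ⟨d1, d2⟩ | ⟨d1, d2⟩
      · have k1 := Prod.ext_iff.1 (e2.injective d1)
        have k2 := Prod.ext_iff.1 (e2.injective d2)
        exact Prod.ext (Subtype.ext (Subtype.ext (Prod.ext k1.1 k2.1))) k1.2
      · have k1 := Prod.ext_iff.1 (e2.injective d1)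
        have k2 := Prod.ext_iff.1 (e2.injective d2)
        have l1 : gτ G' x = gη G' x' := k1.1
        have l2 : gη G' x = gτ G' x' := k2.1
        have l3 := g_lt G' x
        have l4 := g_lt G' x'
        rw [l1, l2] at l3
        exact absurd (l3.trans l4) (lt_irrefl _)
    · intro y
      obtain ⟨a, ha⟩ : ∃ a, e2 a = gτ H y := e2.surjective _
      obtain ⟨b, hb⟩ : ∃ b, e2 b = gη H y := e2.surjective _
      have hab : H.Adj (e2 a) (e2 b) := by
        rw [ha, hb]
        exact y.2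
      obtain ⟨m1, m2⟩ := (hadj a b).1 hab
      rcases lt_or_gt_of_ne (G'.ne_of_adj m1) with hlt | hlt
      · refine ⟨(⟨⟨(a.1, b.1), hlt⟩, m1⟩, a.2), ?_⟩
        have t1 : τ2 (⟨⟨(a.1, b.1), hlt⟩, m1⟩, a.2) = gτ H y := ha
        have t2 : η2 (⟨⟨(a.1, b.1), hlt⟩, m1⟩, a.2) = gη H y := by
          rw [← hb]
          show e2 (b.1, a.2 * β' a.1 b.1) = e2 b
          rw [← m2]
        exact (mk_congr H t1 t2 _ _).trans (mk_tau H y)
      · refine ⟨(⟨⟨(b.1, a.1), hlt⟩, m1.symm⟩, b.2), ?_⟩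
        have t1 : τ2 (⟨⟨(b.1, a.1), hlt⟩, m1.symm⟩, b.2) = gη H y := hb
        have t2 : η2 (⟨⟨(b.1, a.1), hlt⟩, m1.symm⟩, b.2) = gτ H y := by
          rw [← ha]
          show e2 (a.1, b.2 * β' b.1 a.1) = e2 a
          rw [m2, hβ' a.1 b.1]
          simp
        exact (mk_congr H t1 t2 _ _).trans (mk_eta H y)
  obtain ⟨ε', hε', hiso⟩ := h2 (ZMod p) (p - 2) N (GE G' × P) (GE H) τ2 η2 (gτ H) (gη H)
    (Equiv.ofBijective f hf) 1 (fun x => by
      rw [Equiv.ofBijective_apply, Equiv.Perm.one_apply, Equiv.Perm.one_apply]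
      exact mk_cases H (τ2 x) (η2 x) (hτη x))
  rw [hiso]
  rcases hε' with rfl | rfl
  · simpa using hcc2
  · simpa using hcc2

theorem main_cov (h1 : S_CNT) (h2 : S_ISO) (_h3 : S_NUM) (h4 : S_GME) : S_COV := cov h1 h2 h4

end Pool.Agent.Y592.ZF
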